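import Pool.Agent.H637R2.TD.Main

/-!
# Finitude of attractors is `C^r` dense among flag preserving diffeomorphisms of tori

`IsFlagDiffeo r f`: `f` is a `C^r` diffeomorphism of `𝕋^d` with
`f(x)_k = f_k(x_k, …, x_{d-1})` for all `k`, each `f_k` preserving the orientation in `x_k`.
Every such `f` is `C^r` approximated by such `g` with finitely many attractors covering `𝕋^d`; in
fact `g` satisfies Axiom A with finite nonwandering set and without cycles.
-/

namespace Pool.Agent.Results.MP_3a2b62_an.FlagDiffeos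

open Pool.Agent.H728R2.OS Pool.Agent.H637R2.TD

theorem result (d : ℕ) (r : ℕ∞) (hr : 1 ≤ r) (f : Torus d ≃ₜ Torus d) (hf : IsFlagDiffeo r f)
    (k : ℕ) (hk : (k : ℕ∞) ≤ r) (ε : ℝ) (hε : 0 < ε) :
    ∃ g : Torus d ≃ₜ Torus d, IsFlagDiffeo r g ∧ CkClose toTorus k ε f g ∧
      FinitelyManyAttractors g ∧ (Omega g).Finite ∧ AxiomA toTorus g ∧ NoCycle g := by
  obtain ⟨g, hg, hc, hC, hH⟩ := density_close hr f hf k hk ε hε
  obtain ⟨-, -, h1, h2, -, h3⟩ := all_of_conv g hC hH
  exact ⟨g, hg, hc, attractors_of_conv g hC, h3, h1, h2⟩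

end Pool.Agent.Results.MP_3a2b62_an.FlagDiffeos
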