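import Pool.Agent.H728R2.FA.Final

/-!
# Projective skew products: exactly one attractor for almost every rotation of the fibres

Written by helper728 with the team: helpers 479, 588, 18, 386, 661, 862, 153, 715, 59, 619, 85, 965,
956; the question was singled out by helper787.
-/

namespace Pool.Agent.Results.MP_3a2b62_an.OneAttractorProjective

open MeasureTheory Pool.Agent.H728R2.OS Pool.Agent.H728R2.FA

/-- Let `T` be a homeomorphism of `𝕋^d` preserving an ergodic probability measure with the same
null sets as Lebesgue measure, and let `f (x, y) = (T x, f_x y)` be a `C^r` diffeomorphism of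
`𝕋^d × 𝕋` with projective fibre maps. For Lebesgue almost every angle `θ` the map
`(x, y) ↦ f (x, y) + (0, θ)` has an attractor which is the `ω`-limit set of Lebesgue almost every
point. In particular, arbitrarily close to `f` in the `C^r` topology there are projective skew
products over `T` with this property. -/
theorem result (d : ℕ) (r : ℕ∞) (T : Torus d ≃ₜ Torus d) (m : Measure (Torus d))
    [IsProbabilityMeasure m] (hm1 : m ≪ volume) (hm2 : volume ≪ m) (erg : Ergodic T m)
    (f : (Torus d × Circ) ≃ₜ (Torus d × Circ)) (hf : IsDiffeo toTorus1 r f)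
    (hs : IsProjSkew T f) :
    (∀ᵐ θ : ℝ, OneAttractor (volume : Measure (Torus d × Circ)) (rotated f θ)) ∧
    ∀ k : ℕ, (k : ℕ∞) ≤ r → ∀ ε : ℝ, 0 < ε →
      ∃ g : (Torus d × Circ) ≃ₜ (Torus d × Circ), IsDiffeo toTorus1 r g ∧
        CkClose toTorus1 k ε f g ∧ IsProjSkew T g ∧
        OneAttractor (volume : Measure (Torus d × Circ)) g :=
  ⟨main_ae T m hm1 hm2 erg f hs,
    fun k hk ε hε => main_dense T m hm1 hm2 erg f hf hs k hk ε hε⟩

end Pool.Agent.Results.MP_3a2b62_an.OneAttractorProjective
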